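import Mathlib

/-!
Definitions for the inequality of Hanna Neumann type over group algebras.

For a group `G` and a field `K`, right `K[G]`-modules are modules over the opposite ring
`(MonoidAlgebra K G)ᵐᵒᵖ`; in particular `Fin d → MonoidAlgebra K G` is the free right module
`K[G]^d`, with `u • r = (u i * r)_i`.
-/

set_option autoImplicit false

open Module MulOpposite

namespace Q53.HN

section Defs

variable {K : Type*} [Field K] {G : Type*} [Group G]

/-- The right `K[G]`-module `N` is free with a basis of `n` elements. -/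
def HasRank (K : Type*) [Field K] (G : Type*) [Group G] (N : Type*) [AddCommGroup N]
    [Module (MonoidAlgebra K G)ᵐᵒᵖ N] (n : ℕ) : Prop :=
  Nonempty (Basis (Fin n) (MonoidAlgebra K G)ᵐᵒᵖ N)

/-- The group `G` is free with a basis of `n` elements. -/
def GroupHasRank (G : Type*) [Group G] (n : ℕ) : Prop := Nonempty (FreeGroupBasis (Fin n) G)

/-- No proper free direct summand of the right module `K[G]^d` contains `M`. -/
def IsAlgebraicSub {d : ℕ}
    (M : Submodule (MonoidAlgebra K G)ᵐᵒᵖ (Fin d → MonoidAlgebra K G)) : Prop :=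
  ∀ P Q : Submodule (MonoidAlgebra K G)ᵐᵒᵖ (Fin d → MonoidAlgebra K G),
    IsCompl P Q → Module.Free (MonoidAlgebra K G)ᵐᵒᵖ P → M ≤ P → P = ⊤

/-- The inclusion of `K[H]` in `K[G]`. -/
noncomputable def incl (K : Type*) [Field K] {G : Type*} [Group G] (H : Subgroup G) :
    MonoidAlgebra K H →+* MonoidAlgebra K G :=
  MonoidAlgebra.mapDomainRingHom K H.subtype

/-- The right `K[H]`-submodule `M ∩ K[H]^d` of `K[H]^d`. -/
noncomputable def inter {d : ℕ}
    (M : Submodule (MonoidAlgebra K G)ᵐᵒᵖ (Fin d → MonoidAlgebra K G)) (H : Subgroup G) :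
    Submodule (MonoidAlgebra K H)ᵐᵒᵖ (Fin d → MonoidAlgebra K H) where
  carrier := {v | (fun i => incl K H (v i)) ∈ M}
  zero_mem' := by
    have h : (fun i : Fin d => incl K H ((0 : Fin d → MonoidAlgebra K H) i)) = 0 := by
      funext i; simp
    rw [Set.mem_ofPred_eq, h]
    exact M.zero_mem
  add_mem' := by
    intro v w hv hw
    have h : (fun i : Fin d => incl K H ((v + w) i)) =
        (fun i => incl K H (v i)) + (fun i => incl K H (w i)) := by
      funext i; simp
    rw [Set.mem_ofPred_eq, h]
    exact M.add_mem hv hw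
  smul_mem' := by
    intro c v hv
    have h : (fun i : Fin d => incl K H ((c • v) i)) =
        (op (incl K H (unop c))) • (fun i => incl K H (v i)) := by
      funext i
      simp only [Pi.smul_apply, MulOpposite.smul_eq_mul_unop, unop_op, map_mul]
    rw [Set.mem_ofPred_eq, h]
    exact M.smul_mem _ hv

end Defs

/-- The number of elements of a basis of a right `K[G]`-module is well defined. -/
theorem HasRank.unique {K : Type*} [Field K] {G : Type*} [Group G] {N : Type*} [AddCommGroup N]
    [Module (MonoidAlgebra K G)ᵐᵒᵖ N] {m n : ℕ} (hm : HasRank K G N m) (hn : HasRank K G N n) :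
    m = n := by
  obtain ⟨b⟩ := hm
  obtain ⟨b'⟩ := hn
  have hibn : InvariantBasisNumber (MonoidAlgebra K G)ᵐᵒᵖ := by
    rw [invariantBasisNumber_iff_matrix]
    intro p q f g hfg hgf
    have h1 : InvariantBasisNumber Kᵐᵒᵖ := inferInstance
    rw [invariantBasisNumber_iff_matrix] at h1
    obtain ⟨φ, -⟩ : ∃ φ : (MonoidAlgebra K G)ᵐᵒᵖ →+* Kᵐᵒᵖ, φ = φ :=
      ⟨((MonoidAlgebra.lift K K G 1 : MonoidAlgebra K G →ₐ[K] K) :
        MonoidAlgebra K G →+* K).op, rfl⟩
    refine h1 p q (f.map φ) (g.map φ) ?_ ?_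
    · rw [← Matrix.map_mul, hfg, Matrix.map_one _ (map_zero φ) (map_one φ)]
    · rw [← Matrix.map_mul, hgf, Matrix.map_one _ (map_zero φ) (map_one φ)]
  exact InvariantBasisNumber.eq_of_fin_equiv (b.equivFun.symm.trans b'.equivFun)

end Q53.HN
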