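import Pool.Agent.Q53.HannaNeumann.Fox

/-!
The subgroup generated by the conjugates `x ^ i * y * x ^ (-i)`, `0 ≤ i < h`, of the free group on
`x, y`: it is free of rank `h`.
-/

set_option autoImplicit false

namespace Q53.HN

/-- the free group on two letters -/
abbrev F2 : Type := FreeGroup (Fin 2)

/-- the homomorphism from the free group of rank `h` sending the `i`-th letter to
`x ^ i * y * x ^ (-i)`. -/
noncomputable def phi (h : ℕ) : FreeGroup (Fin h) →* F2 :=
  FreeGroup.lift (fun i : Fin h => FreeGroup.of (0 : Fin 2) ^ (i : ℕ) * FreeGroup.of 1 *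
    (FreeGroup.of (0 : Fin 2) ^ (i : ℕ))⁻¹)

lemma phi_of (h : ℕ) (i : Fin h) : phi h (FreeGroup.of i) =
    FreeGroup.of (0 : Fin 2) ^ (i : ℕ) * FreeGroup.of 1 *
    (FreeGroup.of (0 : Fin 2) ^ (i : ℕ))⁻¹ := by
  simp [phi]

/-- the shift of the free group on the integers -/
noncomputable def shiftZ : MulAut (FreeGroup ℤ) := FreeGroup.freeGroupCongr (Equiv.addRight (1 : ℤ))

lemma shiftZ_of (n : ℤ) : shiftZ (FreeGroup.of n) = FreeGroup.of (n + 1) := by
  simp [shiftZ]

lemma shiftZ_pow_of (k : ℕ) (n : ℤ) : (shiftZ ^ k) (FreeGroup.of n) = FreeGroup.of (n + k) := by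
  induction k with
  | zero => simp
  | succ k ih =>
    rw [pow_succ', MulAut.mul_apply, ih, shiftZ_of]
    push_cast
    congr 1
    ring

/-- the action of the integers on the free group on the integers -/
noncomputable def thetaZ : Multiplicative ℤ →* MulAut (FreeGroup ℤ) := zpowersHom _ shiftZ

lemma thetaZ_one : thetaZ (Multiplicative.ofAdd 1) = shiftZ := by
  simp [thetaZ]

/-- the homomorphism to the semidirect product. -/
noncomputable def tau : F2 →* (FreeGroup ℤ ⋊[thetaZ] Multiplicative ℤ) :=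
  FreeGroup.lift ![SemidirectProduct.inr (Multiplicative.ofAdd 1),
    SemidirectProduct.inl (FreeGroup.of 0)]

lemma tau_x : tau (FreeGroup.of 0) = SemidirectProduct.inr (Multiplicative.ofAdd 1) := by
  simp [tau]

lemma tau_y : tau (FreeGroup.of 1) = SemidirectProduct.inl (FreeGroup.of 0) := by
  simp [tau]

lemma tau_conj (k : ℕ) : tau (FreeGroup.of (0 : Fin 2) ^ k * FreeGroup.of 1 *
    (FreeGroup.of (0 : Fin 2) ^ k)⁻¹) = SemidirectProduct.inl (FreeGroup.of (k : ℤ)) := by
  rw [map_mul, map_mul, map_inv, map_pow, tau_x, tau_y, ← map_pow, ← map_inv,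
    ← SemidirectProduct.inl_aut, map_pow, thetaZ_one, shiftZ_pow_of, zero_add]

lemma phi_injective (h : ℕ) : Function.Injective (phi h) := by
  have h1 : tau.comp (phi h) = (SemidirectProduct.inl (φ := thetaZ)).comp
      (FreeGroup.map (fun i : Fin h => ((i : ℕ) : ℤ))) := by
    apply FreeGroup.ext_hom
    intro i
    rw [MonoidHom.comp_apply, phi_of, tau_conj, MonoidHom.comp_apply, FreeGroup.map.of]
  have h2 : Function.Injective (tau.comp (phi h)) := by
    rw [h1]
    apply Function.Injective.comp SemidirectProduct.inl_injective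
    apply FreeGroup.map_injective
    intro i j hij
    have hij' : ((i : ℕ) : ℤ) = ((j : ℕ) : ℤ) := hij
    exact Fin.ext (by exact_mod_cast hij')
  exact Function.Injective.of_comp (f := tau) h2

/-- the subgroup generated by the conjugates `x ^ i * y * x ^ (-i)`, `0 ≤ i < h` -/
noncomputable def Hsub (h : ℕ) : Subgroup F2 := (phi h).range

/-- the isomorphism of `Hsub h` with the free group of rank `h` -/
noncomputable def HsubEquiv (h : ℕ) : Hsub h ≃* FreeGroup (Fin h) :=
  (MonoidHom.ofInjective (phi_injective h)).symm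

/-- the exponent sum of the first letter -/
noncomputable def chi : F2 →* Multiplicative ℤ :=
  FreeGroup.lift ![Multiplicative.ofAdd 1, 1]

lemma chi_x : chi (FreeGroup.of 0) = Multiplicative.ofAdd 1 := by simp [chi]

lemma chi_y : chi (FreeGroup.of 1) = 1 := by simp [chi]

lemma chi_phi (h : ℕ) (g : FreeGroup (Fin h)) : chi (phi h g) = 1 := by
  have h1 : chi.comp (phi h) = 1 := by
    apply FreeGroup.ext_hom
    intro i
    rw [MonoidHom.comp_apply, phi_of]
    simp [chi_y]
  exact DFunLike.congr_fun h1 g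

lemma chi_of_mem {h : ℕ} {g : F2} (hg : g ∈ Hsub h) : chi g = 1 := by
  obtain ⟨u, rfl⟩ := hg
  exact chi_phi h u

lemma Hsub_fg (h : ℕ) : (Hsub h).FG := by
  rw [← Group.fg_iff_subgroup_fg]
  exact Group.fg_range (phi h)

lemma Hsub_ne_bot {h : ℕ} (hh : 0 < h) : Hsub h ≠ ⊥ := by
  intro hbot
  have h1 : phi h (FreeGroup.of ⟨0, hh⟩) ∈ Hsub h := ⟨_, rfl⟩
  rw [hbot, Subgroup.mem_bot, ← map_one (phi h)] at h1
  exact FreeGroup.of_ne_one _ (phi_injective h h1)

end Q53.HN
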