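import Mathlib

/-!
Fox derivatives on the group algebra of a free group, in their right and left forms, and the
freeness of the augmentation ideal.
-/

set_option autoImplicit false

namespace Q53.HN

variable {K : Type*} [Field K] {ι G : Type*} [Group G]

/-- the group element `g` as an element of the group algebra -/
noncomputable def gel (K : Type*) [Field K] {G : Type*} [Group G] (g : G) : MonoidAlgebra K G :=
  MonoidAlgebra.single g 1

lemma gel_one : gel K (1 : G) = 1 := rfl

lemma gel_mul (g h : G) : gel K (g * h) = gel K g * gel K h := by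
  simp [gel, MonoidAlgebra.single_mul_single]

lemma gel_mul_inv (g : G) : gel K g * gel K g⁻¹ = 1 := by
  rw [← gel_mul, mul_inv_cancel, gel_one]

lemma gel_inv_mul (g : G) : gel K g⁻¹ * gel K g = 1 := by
  rw [← gel_mul, inv_mul_cancel, gel_one]

/-- The affine group of right type: `(p, g) (q, h) = (p h + q, g h)`. -/
structure AffR (K : Type*) [Field K] (G : Type*) [Group G] where
  /-- translation part -/
  p : MonoidAlgebra K G
  /-- group part -/
  g : G

namespace AffR

lemma ext' {x y : AffR K G} (h1 : x.p = y.p) (h2 : x.g = y.g) : x = y := by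
  cases x; cases y; simp_all

noncomputable instance : Mul (AffR K G) := ⟨fun x y => ⟨x.p * gel K y.g + y.p, x.g * y.g⟩⟩
noncomputable instance : One (AffR K G) := ⟨⟨0, 1⟩⟩
noncomputable instance : Inv (AffR K G) := ⟨fun x => ⟨-(x.p * gel K x.g⁻¹), x.g⁻¹⟩⟩

lemma mul_p (x y : AffR K G) : (x * y).p = x.p * gel K y.g + y.p := rfl
lemma mul_g (x y : AffR K G) : (x * y).g = x.g * y.g := rfl
lemma one_p : (1 : AffR K G).p = 0 := rfl
lemma one_g : (1 : AffR K G).g = 1 := rfl
lemma inv_p (x : AffR K G) : (x⁻¹).p = -(x.p * gel K x.g⁻¹) := rfl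
lemma inv_g (x : AffR K G) : (x⁻¹).g = x.g⁻¹ := rfl

noncomputable instance : Group (AffR K G) := Group.ofLeftAxioms
  (by
    intro x y z
    apply ext'
    · simp only [mul_p, mul_g, gel_mul]; noncomm_ring
    · simp only [mul_g, mul_assoc])
  (by
    intro x
    apply ext'
    · simp only [mul_p, one_p]; noncomm_ring
    · simp only [mul_g, one_g, one_mul])
  (by
    intro x
    apply ext'
    · simp only [mul_p, inv_p, one_p]
      rw [neg_mul, mul_assoc, gel_inv_mul, mul_one, neg_add_cancel]
    · simp only [mul_g, inv_g, one_g, inv_mul_cancel])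

end AffR

/-- The affine group of left type: `(p, g) (q, h) = (g q + p, g h)`. -/
structure AffL (K : Type*) [Field K] (G : Type*) [Group G] where
  /-- translation part -/
  p : MonoidAlgebra K G
  /-- group part -/
  g : G

namespace AffL

lemma ext' {x y : AffL K G} (h1 : x.p = y.p) (h2 : x.g = y.g) : x = y := by
  cases x; cases y; simp_all

noncomputable instance : Mul (AffL K G) := ⟨fun x y => ⟨gel K x.g * y.p + x.p, x.g * y.g⟩⟩
noncomputable instance : One (AffL K G) := ⟨⟨0, 1⟩⟩
noncomputable instance : Inv (AffL K G) := ⟨fun x => ⟨-(gel K x.g⁻¹ * x.p), x.g⁻¹⟩⟩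

lemma mul_p (x y : AffL K G) : (x * y).p = gel K x.g * y.p + x.p := rfl
lemma mul_g (x y : AffL K G) : (x * y).g = x.g * y.g := rfl
lemma one_p : (1 : AffL K G).p = 0 := rfl
lemma one_g : (1 : AffL K G).g = 1 := rfl
lemma inv_p (x : AffL K G) : (x⁻¹).p = -(gel K x.g⁻¹ * x.p) := rfl
lemma inv_g (x : AffL K G) : (x⁻¹).g = x.g⁻¹ := rfl

noncomputable instance : Group (AffL K G) := Group.ofLeftAxioms
  (by
    intro x y z
    apply ext'
    · simp only [mul_p, mul_g, gel_mul]; noncomm_ring
    · simp only [mul_g, mul_assoc])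
  (by
    intro x
    apply ext'
    · simp only [mul_p, one_p, one_g, gel_one]; noncomm_ring
    · simp only [mul_g, one_g, one_mul])
  (by
    intro x
    apply ext'
    · simp only [mul_p, inv_p, inv_g, one_p, add_neg_cancel]
    · simp only [mul_g, inv_g, one_g, inv_mul_cancel])

end AffL

/-- Right Fox derivatives. -/
theorem exists_foxR (b : FreeGroupBasis ι G) (c : ι → MonoidAlgebra K G) :
    ∃ D : MonoidAlgebra K G →+ MonoidAlgebra K G,
      ∀ (a : ι) (u : MonoidAlgebra K G), D ((gel K (b a) - 1) * u) = c a * u := by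
  obtain ⟨ρ, hρ⟩ : ∃ ρ : G →* AffR K G, ρ = b.lift (fun a => ⟨c a, b a⟩) := ⟨_, rfl⟩
  have hb : ∀ a, ρ (b a) = ⟨c a, b a⟩ := by intro a; rw [hρ]; simp
  obtain ⟨π, hπ⟩ : ∃ π : AffR K G →* G, ∀ x, π x = x.g :=
    ⟨{ toFun := fun x => x.g, map_one' := rfl, map_mul' := fun _ _ => rfl }, fun _ => rfl⟩
  have hid : π.comp ρ = MonoidHom.id G := by
    apply b.ext_hom
    intro a
    rw [MonoidHom.comp_apply, hb, hπ]; rfl
  have hg : ∀ g, (ρ g).g = g := by
    intro g
    have := DFunLike.congr_fun hid g
    rw [MonoidHom.comp_apply, hπ] at this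
    exact this
  have hmul : ∀ g h, (ρ (g * h)).p = (ρ g).p * gel K h + (ρ h).p := by
    intro g h
    rw [map_mul, AffR.mul_p, hg]
  obtain ⟨D, hD⟩ : ∃ D : MonoidAlgebra K G →+ MonoidAlgebra K G,
      ∀ g r, D (MonoidAlgebra.single g r) = r • (ρ g).p := by
    refine ⟨((Finsupp.linearCombination K (fun g => (ρ g).p)).toAddMonoidHom).comp
      (MonoidAlgebra.coeffAddEquiv (R := K) (M := G)).toAddMonoidHom, ?_⟩
    intro g r
    simp
  refine ⟨D, ?_⟩
  intro a u
  induction u using MonoidAlgebra.induction_linear with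
  | zero => simp
  | add x y hx hy => rw [mul_add, map_add, hx, hy, mul_add]
  | single g r =>
    have h1 : (gel K (b a) - 1) * MonoidAlgebra.single g r =
        MonoidAlgebra.single (b a * g) r - MonoidAlgebra.single g r := by
      rw [sub_mul, one_mul, gel, MonoidAlgebra.single_mul_single, one_mul]
    have h2 : MonoidAlgebra.single g r = r • gel K g := by
      simp [gel]
    rw [h1, map_sub, hD, hD, hmul, hb, smul_add, add_sub_cancel_right, h2, mul_smul_comm]

/-- Left Fox derivatives. -/
theorem exists_foxL (b : FreeGroupBasis ι G) (c : ι → MonoidAlgebra K G) :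
    ∃ D : MonoidAlgebra K G →+ MonoidAlgebra K G,
      ∀ (a : ι) (u : MonoidAlgebra K G), D (u * (gel K (b a) - 1)) = u * c a := by
  obtain ⟨ρ, hρ⟩ : ∃ ρ : G →* AffL K G, ρ = b.lift (fun a => ⟨c a, b a⟩) := ⟨_, rfl⟩
  have hb : ∀ a, ρ (b a) = ⟨c a, b a⟩ := by intro a; rw [hρ]; simp
  obtain ⟨π, hπ⟩ : ∃ π : AffL K G →* G, ∀ x, π x = x.g :=
    ⟨{ toFun := fun x => x.g, map_one' := rfl, map_mul' := fun _ _ => rfl }, fun _ => rfl⟩
  have hid : π.comp ρ = MonoidHom.id G := by
    apply b.ext_hom
    intro a
    rw [MonoidHom.comp_apply, hb, hπ]; rfl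
  have hg : ∀ g, (ρ g).g = g := by
    intro g
    have := DFunLike.congr_fun hid g
    rw [MonoidHom.comp_apply, hπ] at this
    exact this
  have hmul : ∀ g h, (ρ (g * h)).p = gel K g * (ρ h).p + (ρ g).p := by
    intro g h
    rw [map_mul, AffL.mul_p, hg]
  obtain ⟨D, hD⟩ : ∃ D : MonoidAlgebra K G →+ MonoidAlgebra K G,
      ∀ g r, D (MonoidAlgebra.single g r) = r • (ρ g).p := by
    refine ⟨((Finsupp.linearCombination K (fun g => (ρ g).p)).toAddMonoidHom).comp
      (MonoidAlgebra.coeffAddEquiv (R := K) (M := G)).toAddMonoidHom, ?_⟩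
    intro g r
    simp
  refine ⟨D, ?_⟩
  intro a u
  induction u using MonoidAlgebra.induction_linear with
  | zero => simp
  | add x y hx hy => rw [add_mul, map_add, hx, hy, add_mul]
  | single g r =>
    have h1 : MonoidAlgebra.single g r * (gel K (b a) - 1) =
        MonoidAlgebra.single (g * b a) r - MonoidAlgebra.single g r := by
      rw [mul_sub, mul_one, gel, MonoidAlgebra.single_mul_single, mul_one]
    have h2 : MonoidAlgebra.single g r = r • gel K g := by
      simp [gel]
    rw [h1, map_sub, hD, hD, hmul, hb, smul_add, add_sub_cancel_right, h2, smul_mul_assoc]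

/-- The elements `b a - 1` are right linearly independent over the group algebra. -/
theorem right_indep [Fintype ι] (b : FreeGroupBasis ι G) (c : ι → MonoidAlgebra K G)
    (h : ∑ a, (gel K (b a) - 1) * c a = 0) : ∀ a, c a = 0 := by
  classical
  intro a0
  obtain ⟨D, hD⟩ := exists_foxR b (fun a => if a = a0 then (1 : MonoidAlgebra K G) else 0)
  have h1 := congrArg D h
  rw [map_sum, map_zero] at h1
  simp only [hD, ite_mul, one_mul, zero_mul] at h1
  rw [Finset.sum_ite_eq' Finset.univ a0] at h1
  simpa using h1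

/-- The elements `b a - 1` are left linearly independent over the group algebra. -/
theorem left_indep [Fintype ι] (b : FreeGroupBasis ι G) (c : ι → MonoidAlgebra K G)
    (h : ∑ a, c a * (gel K (b a) - 1) = 0) : ∀ a, c a = 0 := by
  classical
  intro a0
  obtain ⟨D, hD⟩ := exists_foxL b (fun a => if a = a0 then (1 : MonoidAlgebra K G) else 0)
  have h1 := congrArg D h
  rw [map_sum, map_zero] at h1
  simp only [hD, mul_ite, mul_one, mul_zero] at h1
  rw [Finset.sum_ite_eq' Finset.univ a0] at h1
  simpa using h1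

/-- The augmentation. -/
noncomputable def aug (K : Type*) [Field K] (G : Type*) [Group G] : MonoidAlgebra K G →ₐ[K] K :=
  MonoidAlgebra.lift K K G 1

lemma aug_single (g : G) (r : K) : aug K G (MonoidAlgebra.single g r) = r := by
  simp [aug]

lemma aug_gel (g : G) : aug K G (gel K g) = 1 := aug_single g 1

/-- Every group element is congruent to one modulo the right ideal generated by the `b a - 1`. -/
theorem exists_expand [Fintype ι] (b : FreeGroupBasis ι G) (g : G) :
    ∃ c : ι → MonoidAlgebra K G, gel K g - 1 = ∑ a, (gel K (b a) - 1) * c a := by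
  classical
  obtain ⟨S, hS⟩ : ∃ S : Subgroup G, ∀ g, g ∈ S ↔
      ∃ c : ι → MonoidAlgebra K G, gel K g - 1 = ∑ a, (gel K (b a) - 1) * c a := by
    refine ⟨{ carrier := {g | ∃ c : ι → MonoidAlgebra K G,
                gel K g - 1 = ∑ a, (gel K (b a) - 1) * c a},
              mul_mem' := ?_, one_mem' := ?_, inv_mem' := ?_ }, fun g => Iff.rfl⟩
    · rintro x y ⟨c, hc⟩ ⟨d, hd⟩
      refine ⟨fun a => c a * gel K y + d a, ?_⟩
      have : gel K (x * y) - 1 = (gel K x - 1) * gel K y + (gel K y - 1) := by
        rw [gel_mul]; noncomm_ring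
      rw [this, hc, hd, Finset.sum_mul, ← Finset.sum_add_distrib]
      refine Finset.sum_congr rfl fun a _ => ?_
      rw [mul_add, mul_assoc]
    · exact ⟨fun _ => 0, by simp [gel_one]⟩
    · rintro x ⟨c, hc⟩
      refine ⟨fun a => -(c a * gel K x⁻¹), ?_⟩
      have : gel K x⁻¹ - 1 = -((gel K x - 1) * gel K x⁻¹) := by
        rw [sub_mul, gel_mul_inv, one_mul]; noncomm_ring
      rw [this, hc, Finset.sum_mul, ← Finset.sum_neg_distrib]
      refine Finset.sum_congr rfl fun a _ => ?_
      rw [mul_neg, mul_assoc]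
  have hmem : ∀ a, b a ∈ S := by
    intro a0
    rw [hS]
    refine ⟨fun a => if a = a0 then 1 else 0, ?_⟩
    simp
  have : g ∈ S := by
    have h1 : (b.lift (fun a => (⟨b a, hmem a⟩ : S))) = (b.lift (fun a => (⟨b a, hmem a⟩ : S))) := rfl
    have h2 : S.subtype.comp (b.lift (fun a => (⟨b a, hmem a⟩ : S))) = MonoidHom.id G := by
      apply b.ext_hom
      intro a
      simp
    have h3 := DFunLike.congr_fun h2 g
    rw [MonoidHom.comp_apply, MonoidHom.id_apply] at h3
    rw [← h3]
    exact ((b.lift (fun a => (⟨b a, hmem a⟩ : S))) g).2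
  exact (hS g).1 this

/-- Elements of augmentation zero are right combinations of the `b a - 1`. -/
theorem exists_expand_of_aug [Fintype ι] (b : FreeGroupBasis ι G) (u : MonoidAlgebra K G)
    (hu : aug K G u = 0) :
    ∃ c : ι → MonoidAlgebra K G, u = ∑ a, (gel K (b a) - 1) * c a := by
  classical
  have key : ∀ u : MonoidAlgebra K G, ∃ c : ι → MonoidAlgebra K G,
      u = ∑ a, (gel K (b a) - 1) * c a + MonoidAlgebra.single 1 (aug K G u) := by
    intro u
    induction u using MonoidAlgebra.induction_linear with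
    | zero => exact ⟨fun _ => 0, by simp⟩
    | add x y hx hy =>
      obtain ⟨c, hc⟩ := hx
      obtain ⟨d, hd⟩ := hy
      refine ⟨fun a => c a + d a, ?_⟩
      have h1 : ∑ a, (gel K (b a) - 1) * (c a + d a) =
          ∑ a, (gel K (b a) - 1) * c a + ∑ a, (gel K (b a) - 1) * d a := by
        rw [← Finset.sum_add_distrib]
        exact Finset.sum_congr rfl fun a _ => mul_add _ _ _
      rw [map_add, MonoidAlgebra.single_add, h1]
      calc x + y = (∑ a, (gel K (b a) - 1) * c a + MonoidAlgebra.single 1 (aug K G x)) +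
            (∑ a, (gel K (b a) - 1) * d a + MonoidAlgebra.single 1 (aug K G y)) := by
              rw [← hc, ← hd]
        _ = _ := by abel
    | single g r =>
      obtain ⟨c, hc⟩ := exists_expand (K := K) b g
      refine ⟨fun a => r • c a, ?_⟩
      have h1 : ∑ a, (gel K (b a) - 1) * (r • c a) = r • (gel K g - 1) := by
        rw [hc, Finset.smul_sum]
        exact Finset.sum_congr rfl fun a _ => mul_smul_comm _ _ _
      rw [h1, aug_single, smul_sub]
      have h2 : r • gel K g = MonoidAlgebra.single g r := by simp [gel]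
      have h3 : r • (1 : MonoidAlgebra K G) = MonoidAlgebra.single 1 r := by
        rw [MonoidAlgebra.one_def]; simp
      rw [h2, h3]; abel
  obtain ⟨c, hc⟩ := key u
  refine ⟨c, ?_⟩
  rw [hu, MonoidAlgebra.single_zero, add_zero] at hc
  exact hc

lemma aug_gen (g : G) (c : MonoidAlgebra K G) : aug K G ((gel K g - 1) * c) = 0 := by
  rw [map_mul, map_sub, aug_gel, map_one, sub_self, zero_mul]

end Q53.HN
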