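import Pool.Agent.Q53.HannaNeumann.Defs
import Pool.Agent.Q53.HannaNeumann.Emb

/-!
Submodules of `K[F]^d`, `F` free of rank two, that violate the inequality of Hanna Neumann type.
-/

set_option autoImplicit false

open Module MulOpposite

namespace Q53.HN

section Lemmas

variable {K : Type*} [Field K]

lemma incl_single {G : Type*} [Group G] (H : Subgroup G) (g : H) (r : K) :
    incl K H (MonoidAlgebra.single g r) = MonoidAlgebra.single (g : G) r := by
  simp [incl]

lemma incl_gel {G : Type*} [Group G] (H : Subgroup G) (g : H) :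
    incl K H (gel K g) = gel K (g : G) := by
  simp [gel, incl_single]

lemma incl_injective {G : Type*} [Group G] (H : Subgroup G) :
    Function.Injective (incl K H) :=
  MonoidAlgebra.mapDomain_injective H.subtype_injective

lemma aug_incl {G : Type*} [Group G] (H : Subgroup G) (v : MonoidAlgebra K H) :
    aug K G (incl K H v) = aug K H v := by
  induction v using MonoidAlgebra.induction_linear with
  | zero => simp
  | add x y hx hy => simp only [map_add, hx, hy]
  | single g r => rw [incl_single, aug_single, aug_single]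

lemma incl_coeff_eq_zero {G : Type*} [Group G] (H : Subgroup G) (v : MonoidAlgebra K H) (g : G)
    (hg : g ∉ H) : (incl K H v).coeff g = 0 := by
  induction v using MonoidAlgebra.induction_linear with
  | zero => simp
  | add x y hx hy => simp only [map_add, MonoidAlgebra.coeff_add, Finsupp.add_apply, hx, hy, add_zero]
  | single k r =>
    classical
    rw [incl_single, MonoidAlgebra.coeff_single, Finsupp.single_apply, if_neg]
    rintro rfl
    exact hg k.2

/-- If `(x - 1) w` lies in `K[H]`, where `H` lies in the kernel of the exponent sum of `x`, then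
`w = 0`. -/
lemma eq_zero_of_incl {h : ℕ} (w : MonoidAlgebra K F2) (v : MonoidAlgebra K (Hsub h))
    (hv : incl K (Hsub h) v = (gel K (FreeGroup.of 0) - 1) * w) : w = 0 := by
  classical
  by_contra hw
  have hne : w.coeff.support.Nonempty := by
    rw [Finsupp.support_nonempty_iff]
    intro h0
    apply hw
    apply MonoidAlgebra.coeff_injective
    rw [h0]; rfl
  obtain ⟨n, hn⟩ : ∃ n : F2 → ℤ, n = fun g => Multiplicative.toAdd (chi g) := ⟨_, rfl⟩
  have hnx : ∀ g, n (FreeGroup.of 0 * g) = n g + 1 := by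
    intro g
    rw [hn]
    simp only [map_mul, chi_x, toAdd_mul, toAdd_ofAdd]
    ring
  have hnH : ∀ g, g ∈ Hsub h → n g = 0 := by
    intro g hg
    rw [hn]
    simp only [chi_of_mem hg, toAdd_one]
  have hcoef : ∀ g, (incl K (Hsub h) v).coeff g =
      w.coeff ((FreeGroup.of 0)⁻¹ * g) - w.coeff g := by
    intro g
    rw [hv, sub_mul, one_mul, MonoidAlgebra.coeff_sub, Finsupp.sub_apply, gel,
      MonoidAlgebra.coeff_single_mul_apply, one_mul]
  obtain ⟨g, hg, hgmax⟩ := Finset.exists_max_image _ n hne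
  obtain ⟨g', hg', hgmin⟩ := Finset.exists_min_image _ n hne
  have h1 : n g = -1 := by
    have h2 : (incl K (Hsub h) v).coeff (FreeGroup.of 0 * g) ≠ 0 := by
      rw [hcoef, inv_mul_cancel_left]
      have h3 : w.coeff (FreeGroup.of 0 * g) = 0 := by
        by_contra h4
        have h5 := hgmax _ (Finsupp.mem_support_iff.2 h4)
        rw [hnx] at h5
        omega
      rw [h3, sub_zero]
      exact Finsupp.mem_support_iff.1 hg
    have h3 : FreeGroup.of 0 * g ∈ Hsub h := by
      by_contra h4
      exact h2 (incl_coeff_eq_zero _ _ _ h4)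
    have h4 := hnH _ h3
    rw [hnx] at h4
    omega
  have h2 : n g' = 0 := by
    have h2 : (incl K (Hsub h) v).coeff g' ≠ 0 := by
      rw [hcoef]
      have h3 : w.coeff ((FreeGroup.of 0)⁻¹ * g') = 0 := by
        by_contra h4
        have h5 := hgmin _ (Finsupp.mem_support_iff.2 h4)
        have h6 := hnx ((FreeGroup.of 0)⁻¹ * g')
        rw [mul_inv_cancel_left] at h6
        omega
      rw [h3, zero_sub, neg_ne_zero]
      exact Finsupp.mem_support_iff.1 hg'
    have h3 : g' ∈ Hsub h := by
      by_contra h4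
      exact h2 (incl_coeff_eq_zero _ _ _ h4)
    exact hnH _ h3
  have h3 := hgmin g hg
  omega

/-- the two elements `x - 1`, `y - 1` -/
noncomputable def X (K : Type*) [Field K] (s : Fin 2) : MonoidAlgebra K F2 :=
  gel K (FreeGroup.of s) - 1

/-- the standard basis of the free group -/
noncomputable def b2 : FreeGroupBasis (Fin 2) F2 := ⟨MulEquiv.refl _⟩

lemma b2_apply (s : Fin 2) : b2 s = FreeGroup.of s := rfl

/-- the basis of `Hsub h`. -/
noncomputable def bH (h : ℕ) : FreeGroupBasis (Fin h) (Hsub h) := ⟨HsubEquiv h⟩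

lemma X_right (c : Fin 2 → MonoidAlgebra K F2) (h : ∑ s, X K s * c s = 0) : ∀ s, c s = 0 :=
  right_indep b2 c h

lemma X_left (c : Fin 2 → MonoidAlgebra K F2) (h : ∑ s, c s * X K s = 0) : ∀ s, c s = 0 :=
  left_indep b2 c h

/-- The submodule `I_F^a ⊕ (x - 1, y - 1) K[F]` of `K[F]^(a + 2)`. -/
noncomputable def MM (K : Type*) [Field K] (a : ℕ) :
    Submodule (MonoidAlgebra K F2)ᵐᵒᵖ (Fin (a + 2) → MonoidAlgebra K F2) where
  carrier := {u | (∀ j : Fin a, aug K F2 (u (Fin.castAdd 2 j)) = 0) ∧
    ∃ w : MonoidAlgebra K F2, ∀ s : Fin 2, u (Fin.natAdd a s) = X K s * w}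
  zero_mem' := ⟨fun j => by simp, 0, fun s => by simp⟩
  add_mem' := by
    rintro u v ⟨hu, w, hw⟩ ⟨hv, w', hw'⟩
    refine ⟨fun j => ?_, w + w', fun s => ?_⟩
    · rw [Pi.add_apply, map_add, hu, hv, add_zero]
    · rw [Pi.add_apply, hw, hw', mul_add]
  smul_mem' := by
    rintro c u ⟨hu, w, hw⟩
    refine ⟨fun j => ?_, w * unop c, fun s => ?_⟩
    · rw [Pi.smul_apply, MulOpposite.smul_eq_mul_unop, map_mul, hu, zero_mul]
    · rw [Pi.smul_apply, MulOpposite.smul_eq_mul_unop, hw, mul_assoc]

lemma mem_MM {a : ℕ} (u : Fin (a + 2) → MonoidAlgebra K F2) :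
    u ∈ MM K a ↔ (∀ j : Fin a, aug K F2 (u (Fin.castAdd 2 j)) = 0) ∧
    ∃ w : MonoidAlgebra K F2, ∀ s : Fin 2, u (Fin.natAdd a s) = X K s * w := Iff.rfl

lemma mem_inter {G : Type*} [Group G] {d : ℕ}
    (M : Submodule (MonoidAlgebra K G)ᵐᵒᵖ (Fin d → MonoidAlgebra K G)) (H : Subgroup G)
    (v : Fin d → MonoidAlgebra K H) :
    v ∈ inter M H ↔ (fun i => incl K H (v i)) ∈ M := Iff.rfl

lemma mem_inter_MM {a h : ℕ} (v : Fin (a + 2) → MonoidAlgebra K (Hsub h)) :
    v ∈ inter (MM K a) (Hsub h) ↔ (∀ j : Fin a, aug K (Hsub h) (v (Fin.castAdd 2 j)) = 0) ∧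
      ∀ s : Fin 2, v (Fin.natAdd a s) = 0 := by
  rw [mem_inter, mem_MM]
  constructor
  · rintro ⟨h1, w, hw⟩
    refine ⟨fun j => ?_, fun s => ?_⟩
    · rw [← aug_incl]; exact h1 j
    · have hw0 : w = 0 := eq_zero_of_incl w (v (Fin.natAdd a 0)) (hw 0)
      apply incl_injective (K := K) (Hsub h)
      rw [hw s, hw0, mul_zero, map_zero]
  · rintro ⟨h1, h2⟩
    refine ⟨fun j => ?_, 0, fun s => ?_⟩
    · rw [aug_incl]; exact h1 j
    · rw [h2 s, map_zero, mul_zero]

/-- the parametrisation of `MM K a`. -/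
noncomputable def paramM (K : Type*) [Field K] (a : ℕ) :
    ((Fin a × Fin 2) ⊕ Unit → (MonoidAlgebra K F2)ᵐᵒᵖ) →ₗ[(MonoidAlgebra K F2)ᵐᵒᵖ] MM K a where
  toFun c := ⟨Fin.append (fun j => ∑ s, X K s * unop (c (Sum.inl (j, s))))
      (fun s => X K s * unop (c (Sum.inr ()))), by
    refine ⟨fun j => ?_, unop (c (Sum.inr ())), fun s => ?_⟩
    · rw [Fin.append_left, map_sum]
      exact Finset.sum_eq_zero fun s _ => aug_gen _ _
    · rw [Fin.append_right]⟩
  map_add' c d := by
    apply Subtype.ext
    funext i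
    refine Fin.addCases (fun j => ?_) (fun s => ?_) i
    · simp only [Submodule.coe_add, Pi.add_apply, Fin.append_left, unop_add, mul_add,
        Finset.sum_add_distrib]
    · simp only [Submodule.coe_add, Pi.add_apply, Fin.append_right, unop_add, mul_add]
  map_smul' r c := by
    apply Subtype.ext
    funext i
    refine Fin.addCases (fun j => ?_) (fun s => ?_) i
    · simp only [Submodule.coe_smul, Pi.smul_apply, Fin.append_left, smul_eq_mul, unop_mul,
        RingHom.id_apply, MulOpposite.smul_eq_mul_unop, Finset.sum_mul, mul_assoc]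
    · simp only [Submodule.coe_smul, Pi.smul_apply, Fin.append_right, smul_eq_mul, unop_mul,
        RingHom.id_apply, MulOpposite.smul_eq_mul_unop, mul_assoc]

lemma paramM_left {a : ℕ} (c : (Fin a × Fin 2) ⊕ Unit → (MonoidAlgebra K F2)ᵐᵒᵖ) (j : Fin a) :
    (paramM K a c : Fin (a + 2) → MonoidAlgebra K F2) (Fin.castAdd 2 j) =
      ∑ s, X K s * unop (c (Sum.inl (j, s))) := by
  simp only [paramM, LinearMap.coe_mk, AddHom.coe_mk, Fin.append_left]

lemma paramM_right {a : ℕ} (c : (Fin a × Fin 2) ⊕ Unit → (MonoidAlgebra K F2)ᵐᵒᵖ) (s : Fin 2) :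
    (paramM K a c : Fin (a + 2) → MonoidAlgebra K F2) (Fin.natAdd a s) =
      X K s * unop (c (Sum.inr ())) := by
  simp only [paramM, LinearMap.coe_mk, AddHom.coe_mk, Fin.append_right]

lemma paramM_bijective (a : ℕ) : Function.Bijective (paramM K a) := by
  constructor
  · rw [injective_iff_map_eq_zero]
    intro c hc
    have hc' : ∀ i, (paramM K a c : Fin (a + 2) → MonoidAlgebra K F2) i = 0 := by
      intro i; rw [hc]; rfl
    funext i
    rcases i with ⟨j, s⟩ | u
    · have h1 := hc' (Fin.castAdd 2 j)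
      rw [paramM_left] at h1
      have h2 := X_right (K := K) (fun s => unop (c (Sum.inl (j, s)))) h1 s
      exact unop_injective h2
    · have h1 := hc' (Fin.natAdd a 0)
      rw [paramM_right] at h1
      have h2 := X_right (K := K) (fun s => if s = 0 then unop (c (Sum.inr ())) else 0)
        (by simpa using h1) 0
      exact unop_injective (by simpa using h2)
  · rintro ⟨u, hu, w, hw⟩
    have h1 : ∀ j : Fin a, ∃ c : Fin 2 → MonoidAlgebra K F2,
        u (Fin.castAdd 2 j) = ∑ s, X K s * c s := fun j =>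
      exists_expand_of_aug b2 _ (hu j)
    choose c hc using h1
    refine ⟨Sum.elim (fun p => op (c p.1 p.2)) (fun _ => op w), ?_⟩
    apply Subtype.ext
    funext i
    refine Fin.addCases (fun j => ?_) (fun s => ?_) i
    · rw [paramM_left]
      simp only [Sum.elim_inl, unop_op]
      exact (hc j).symm
    · rw [paramM_right]
      simp only [Sum.elim_inr, unop_op]
      exact (hw s).symm

/-- `MM K a` has rank `2 a + 1`. -/
theorem hasRank_MM (a : ℕ) : HasRank K F2 (MM K a) (2 * a + 1) := by
  have h1 : Basis ((Fin a × Fin 2) ⊕ Unit) (MonoidAlgebra K F2)ᵐᵒᵖ (MM K a) :=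
    Basis.ofEquivFun (LinearEquiv.ofBijective (paramM K a) (paramM_bijective a)).symm
  refine ⟨h1.reindex (Fintype.equivFinOfCardEq ?_)⟩
  simp [Fintype.card_sum, Fintype.card_prod, mul_comm]

/-- the parametrisation of `MM K a ∩ K[H]^(a + 2)`. -/
noncomputable def paramH (K : Type*) [Field K] (a h : ℕ) :
    (Fin a × Fin h → (MonoidAlgebra K (Hsub h))ᵐᵒᵖ) →ₗ[(MonoidAlgebra K (Hsub h))ᵐᵒᵖ]
      inter (MM K a) (Hsub h) where
  toFun c := ⟨Fin.append (fun j => ∑ i, (gel K (bH h i) - 1) * unop (c (j, i)))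
      (fun _ => 0), by
    rw [mem_inter_MM]
    refine ⟨fun j => ?_, fun s => ?_⟩
    · rw [Fin.append_left, map_sum]
      exact Finset.sum_eq_zero fun s _ => aug_gen _ _
    · rw [Fin.append_right]⟩
  map_add' c d := by
    apply Subtype.ext
    funext i
    refine Fin.addCases (fun j => ?_) (fun s => ?_) i
    · simp only [Submodule.coe_add, Pi.add_apply, Fin.append_left, unop_add, mul_add,
        Finset.sum_add_distrib]
    · simp only [Submodule.coe_add, Pi.add_apply, Fin.append_right, add_zero]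
  map_smul' r c := by
    apply Subtype.ext
    funext i
    refine Fin.addCases (fun j => ?_) (fun s => ?_) i
    · simp only [Submodule.coe_smul, Pi.smul_apply, Fin.append_left, smul_eq_mul, unop_mul,
        RingHom.id_apply, MulOpposite.smul_eq_mul_unop, Finset.sum_mul, mul_assoc]
    · simp only [Submodule.coe_smul, Pi.smul_apply, Fin.append_right, smul_zero]

lemma paramH_left {a h : ℕ} (c : Fin a × Fin h → (MonoidAlgebra K (Hsub h))ᵐᵒᵖ) (j : Fin a) :
    (paramH K a h c : Fin (a + 2) → MonoidAlgebra K (Hsub h)) (Fin.castAdd 2 j) =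
      ∑ i, (gel K (bH h i) - 1) * unop (c (j, i)) := by
  simp only [paramH, LinearMap.coe_mk, AddHom.coe_mk, Fin.append_left]

lemma paramH_right {a h : ℕ} (c : Fin a × Fin h → (MonoidAlgebra K (Hsub h))ᵐᵒᵖ) (s : Fin 2) :
    (paramH K a h c : Fin (a + 2) → MonoidAlgebra K (Hsub h)) (Fin.natAdd a s) = 0 := by
  simp only [paramH, LinearMap.coe_mk, AddHom.coe_mk, Fin.append_right]

lemma paramH_bijective (a h : ℕ) : Function.Bijective (paramH K a h) := by
  constructor
  · rw [injective_iff_map_eq_zero]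
    intro c hc
    have hc' : ∀ i, (paramH K a h c : Fin (a + 2) → MonoidAlgebra K (Hsub h)) i = 0 := by
      intro i; rw [hc]; rfl
    funext i
    obtain ⟨j, s⟩ := i
    have h1 := hc' (Fin.castAdd 2 j)
    rw [paramH_left] at h1
    have h2 := right_indep (bH h) (fun s => unop (c (j, s))) h1 s
    exact unop_injective h2
  · rintro ⟨u, hu⟩
    have hu' := (mem_inter_MM u).1 hu
    have h1 : ∀ j : Fin a, ∃ c : Fin h → MonoidAlgebra K (Hsub h),
        u (Fin.castAdd 2 j) = ∑ s, (gel K (bH h s) - 1) * c s := fun j =>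
      exists_expand_of_aug (bH h) _ (hu'.1 j)
    choose c hc using h1
    refine ⟨fun p => op (c p.1 p.2), ?_⟩
    apply Subtype.ext
    funext i
    refine Fin.addCases (fun j => ?_) (fun s => ?_) i
    · rw [paramH_left]
      simp only [unop_op]
      exact (hc j).symm
    · rw [paramH_right]
      exact (hu'.2 s).symm

/-- `MM K a ∩ K[H]^(a + 2)` has rank `a h`. -/
theorem hasRank_inter (a h : ℕ) :
    HasRank K (Hsub h) (inter (MM K a) (Hsub h)) (h * a) := by
  have h1 : Basis (Fin a × Fin h) (MonoidAlgebra K (Hsub h))ᵐᵒᵖ (inter (MM K a) (Hsub h)) :=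
    Basis.ofEquivFun (LinearEquiv.ofBijective (paramH K a h) (paramH_bijective a h)).symm
  refine ⟨h1.reindex (Fintype.equivFinOfCardEq ?_)⟩
  simp [Fintype.card_prod, mul_comm]

/-- `MM K a` is algebraic. -/
theorem isAlgebraic_MM (a : ℕ) : IsAlgebraicSub (MM K a) := by
  classical
  intro P Q hPQ _ hMP
  obtain ⟨π, hπ⟩ : ∃ π : (Fin (a + 2) → MonoidAlgebra K F2) →ₗ[(MonoidAlgebra K F2)ᵐᵒᵖ]
      (Fin (a + 2) → MonoidAlgebra K F2),
      π = Q.subtype.comp (Submodule.projectionOnto Q P hPQ.symm) := ⟨_, rfl⟩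
  have hP : ∀ u ∈ P, π u = 0 := by
    intro u hu
    rw [hπ, LinearMap.comp_apply, Submodule.projectionOnto_apply_of_mem_right _ hu]
    simp
  have hQ : ∀ u ∈ Q, π u = u := by
    intro u hu
    rw [hπ, LinearMap.comp_apply]
    have := Submodule.projectionOnto_apply_left hPQ.symm ⟨u, hu⟩
    exact congrArg Subtype.val this
  have hcol : ∀ (u : Fin (a + 2) → MonoidAlgebra K F2) (k : Fin (a + 2)),
      π u k = ∑ i, π (Pi.single i 1) k * u i := by
    intro u k
    have h1 : u = ∑ i, (op (u i)) • (Pi.single i (1 : MonoidAlgebra K F2) :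
        Fin (a + 2) → MonoidAlgebra K F2) := by
      funext i
      rw [Finset.sum_apply]
      simp only [Pi.smul_apply, MulOpposite.smul_eq_mul_unop, unop_op, Pi.single_apply, ite_mul,
        one_mul, zero_mul]
      simp
    conv_lhs => rw [h1]
    rw [map_sum, Finset.sum_apply]
    refine Finset.sum_congr rfl fun i _ => ?_
    rw [map_smul, Pi.smul_apply, MulOpposite.smul_eq_mul_unop, unop_op]
  have h0 : ∀ i k, π (Pi.single i 1) k = 0 := by
    intro i k
    refine Fin.addCases (fun j => ?_) (fun s => ?_) i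
    · have hmem : (Pi.single (Fin.castAdd 2 j) (X K 0) : Fin (a + 2) → MonoidAlgebra K F2) ∈ P := by
        apply hMP
        rw [mem_MM]
        refine ⟨fun j' => ?_, 0, fun s => ?_⟩
        · rw [Pi.single_apply]
          split_ifs
          · rw [X, map_sub, aug_gel, map_one, sub_self]
          · rw [map_zero]
        · rw [mul_zero, Pi.single_apply, if_neg]
          intro h
          have := congrArg Fin.val h
          simp at this
          omega
      have h1 := congrFun (hP _ hmem) k
      rw [hcol] at h1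
      simp only [Pi.single_apply, mul_ite, mul_zero] at h1
      rw [Finset.sum_ite_eq' Finset.univ, if_pos (Finset.mem_univ _)] at h1
      have h2 := X_left (K := K) (fun s => if s = 0 then π (Pi.single (Fin.castAdd 2 j) 1) k else 0)
        (by simpa using h1) 0
      simpa using h2
    · have hmem : (Fin.append (fun _ => 0) (fun s => X K s) :
          Fin (a + 2) → MonoidAlgebra K F2) ∈ P := by
        apply hMP
        rw [mem_MM]
        refine ⟨fun j' => ?_, 1, fun s => ?_⟩
        · rw [Fin.append_left, map_zero]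
        · rw [Fin.append_right, mul_one]
      have h1 := congrFun (hP _ hmem) k
      rw [hcol, Fin.sum_univ_add] at h1
      simp only [Fin.append_left, Fin.append_right, mul_zero, Finset.sum_const_zero,
        zero_add] at h1
      exact X_left (K := K) (fun s => π (Pi.single (Fin.natAdd a s) 1) k) h1 s
  have hQ0 : Q = ⊥ := by
    rw [Submodule.eq_bot_iff]
    intro u hu
    rw [← hQ u hu]
    funext k
    rw [hcol]
    simp [h0]
  have := hPQ.sup_eq_top
  rwa [hQ0, sup_bot_eq] at this

end Lemmas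

end Q53.HN
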